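import Pool.Agent.H7.LD.Stmts

/-!
Row GCO0 of the board `ld16`: the pointwise inequality for the weights, `r ≤ p + 1` (after the row GCO0 of helper65).
-/

set_option autoImplicit false

open Finset

namespace Pool.LD7

open Pool.Agent.H23.KT Pool.Agent.H46.KW Pool.KQ Pool.GT7 Pool.GU7 Pool.HZ7 Pool.IA7

theorem gco0_gg_hi (p r q : ℕ) (h : r < q) :
    gg p r q = (r : ℝ) * ((p : ℝ) + 3 - q) / (((p : ℝ) + 3 - r) * q) := by
  unfold gg
  rw [if_neg (not_le.2 h)]

theorem gco0_gg_lo (p r q : ℕ) (h : q ≤ r) : gg p r q = 1 := by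
  unfold gg
  rw [if_pos h]

theorem gco0_gg_mem (p r q : ℕ) (hr : r ≤ p + 1) (hq : q ≤ p + 3) :
    0 ≤ gg p r q ∧ gg p r q ≤ 1 := by
  rcases le_or_gt q r with h | h
  · rw [gco0_gg_lo p r q h]
    norm_num
  · rw [gco0_gg_hi p r q h]
    have h1 : (r : ℝ) ≤ (p : ℝ) + 1 := by exact_mod_cast hr
    have h2 : (q : ℝ) ≤ p + 3 := by exact_mod_cast hq
    have h3 : (r : ℝ) + 1 ≤ q := by exact_mod_cast h
    have h4 : (0 : ℝ) ≤ r := Nat.cast_nonneg r
    have h5 : 0 < ((p : ℝ) + 3 - r) * q := mul_pos (by linarith) (by linarith)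
    constructor
    · exact div_nonneg (mul_nonneg h4 (by linarith)) h5.le
    · rw [div_le_one h5]
      nlinarith

theorem gco0_ww_hi (p r B : ℕ) (hr : r ≤ p + 1) (h : r ≤ B) :
    ww p r B = ((p : ℝ) + 3) * ((B : ℝ) + 1 - r) / (((p : ℝ) + 3 - r) * ((B : ℝ) + 1)) := by
  unfold ww
  rw [gco0_gg_hi p r (B + 1) (by omega)]
  have h1 : (r : ℝ) ≤ (p : ℝ) + 1 := by exact_mod_cast hr
  have h5 : ((p : ℝ) + 3 - r) ≠ 0 := by
    have : 0 < ((p : ℝ) + 3 - r) := by linarith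
    exact this.ne'
  have h6 : ((B : ℝ) + 1) ≠ 0 := by positivity
  push_cast
  field_simp
  ring

theorem gco0_thm : GCO0Stmt := by
  intro p w r hP
  obtain ⟨wp, r1, rp⟩ := hP
  have h1 : (r : ℝ) ≤ (p : ℝ) + 1 := by exact_mod_cast rp
  have h2 : (1 : ℝ) ≤ r := by exact_mod_cast r1
  refine ⟨?_, ?_, ?_, ?_, ?_⟩
  · intro B hB
    have h := gco0_gg_mem p r (B + 1) rp (by omega)
    refine ⟨?_, ?_, h.1, h.2⟩
    · unfold ww
      linarith [h.2]
    · unfold ww
      linarith [h.1]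
  · unfold ww
    rw [gco0_gg_hi p r (p + 2 + 1) (by omega)]
    push_cast
    have : (p : ℝ) + 3 - (p + 2 + 1) = 0 := by ring
    rw [this]
    simp
  · unfold ww
    rw [gco0_gg_hi p r (p + 1 + 1) (by omega)]
    push_cast
    have e1 : (p : ℝ) + 3 - (p + 1 + 1) = 1 := by ring
    rw [e1, mul_one]
    have h5 : 0 < ((p : ℝ) + 3 - r) * (p + 1 + 1) := mul_pos (by linarith) (by linarith)
    have : (r : ℝ) / (((p : ℝ) + 3 - r) * (p + 1 + 1)) ≤ 1 / 2 := by
      rw [div_le_div_iff₀ h5 (by norm_num)]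
      nlinarith
    linarith
  · intro B hB hr
    rw [gco0_ww_hi p r B rp hr]
    have h3 : (r : ℝ) ≤ B := by exact_mod_cast hr
    have h4 : (B : ℝ) ≤ p + 2 := by exact_mod_cast hB
    have h5 : 0 < ((p : ℝ) + 3 - r) * ((B : ℝ) + 1) := mul_pos (by linarith) (by linarith)
    have h6 : 0 < (p : ℝ) + 3 := by linarith
    rw [div_le_div_iff₀ h6 h5]
    nlinarith [mul_nonneg h6.le h6.le, mul_nonneg (by linarith : (0 : ℝ) ≤ B - r) (mul_nonneg h6.le h6.le),
      mul_nonneg (by linarith : (0 : ℝ) ≤ r) (by linarith : (0 : ℝ) ≤ (B : ℝ) + 1),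
      mul_nonneg h6.le (by linarith : (0 : ℝ) ≤ (p : ℝ) + 2 - B)]
  · intro μ hμ
    have hPR : 0 < (p : ℝ) + 3 - r := by linarith
    have hN : 0 < (p : ℝ) + 2 := by positivity
    rcases Nat.lt_or_ge μ 2 with h | h
    · interval_cases μ
      · rw [gco0_gg_hi p r (p + 3 - 0) (by omega), Nat.sub_zero]
        push_cast
        simp
      · rw [gco0_gg_hi p r (p + 3 - 1) (by omega)]
        have e1 : ((p + 3 - 1 : ℕ) : ℝ) = (p : ℝ) + 2 := by
          rw [Nat.add_sub_assoc (by norm_num)]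
          push_cast
          ring
        rw [e1]
        have e2 : (p : ℝ) + 3 - (p + 2) = 1 := by ring
        rw [e2]
        simp
    · have hg := gco0_gg_mem p r (p + 3 - μ) rp (by omega)
      have hc : 1 ≤ μ.choose 2 := Nat.choose_pos h
      have hc' : (1 : ℝ) ≤ (μ.choose 2 : ℝ) := by exact_mod_cast hc
      have : 0 ≤ (r : ℝ) / (((p : ℝ) + 3 - r) * ((p : ℝ) + 2)) * μ := by positivity
      linarith [hg.2]

end Pool.LD7
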